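import Pool.Agent.L7h73.RF.DhAbs
import Pool.Agent.L7h17.RF.Reg

/-!
# Project RF (helper17), part DH: discrete groups (helper73)
-/

set_option autoImplicit false
set_option linter.unusedSectionVars false

open MeasureTheory Filter Topology
open scoped ComplexConjugate InnerProductSpace
open Pool.Agent.W660.FL (HH U)

namespace Pool.Agent.L7h73.RF

open Pool.Agent.L7h17.RF

noncomputable section

section Grp

variable {G : Type} [Group G] [TopologicalSpace G] [IsTopologicalGroup G] [T2Space G]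
  [LocallyCompactSpace G] [MeasurableSpace G] [BorelSpace G]
  (μ : Measure G) [μ.IsHaarMeasure] [μ.Regular] [DiscreteTopology G]

theorem mass_pos (x : G) : 0 < μ {x} :=
  (isOpen_discrete {x}).measure_pos μ (Set.singleton_nonempty x)

theorem mass_lt (x : G) : μ {x} < ⊤ := isCompact_singleton.measure_lt_top

theorem mass_eq (s x : G) : μ {s * x} = μ {x} := by
  have h := measure_preimage_mul μ s⁻¹ {x}
  have e : (fun h => s⁻¹ * h) ⁻¹' {x} = {s * x} := by
    ext y
    simp
  rw [e] at h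
  exact h

theorem ae_all {p : G → Prop} (h : ∀ᵐ x ∂μ, p x) (x : G) : p x := by
  by_contra hx
  have h1 : {x} ⊆ {y | ¬ p y} := by
    rintro y rfl
    exact hx
  have h2 := measure_mono_null h1 (ae_iff.1 h)
  exact (mass_pos μ x).ne' h2

theorem HH_ext {ξ η : HH μ} (h : ∀ y, (ξ : G → ℂ) y = (η : G → ℂ) y) : ξ = η :=
  Lp.ext (Filter.Eventually.of_forall h)

theorem lam_apply (s : G) (ξ : HH μ) (y : G) :
    (lam G μ s ξ : G → ℂ) y = (ξ : G → ℂ) (s⁻¹ * y) :=
  ae_all μ (Lp.coeFn_compMeasurePreserving ξ (measurePreserving_mul_left μ s⁻¹)) y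

/-- point mass -/
def pm (x : G) : HH μ :=
  indicatorConstLp 2 (measurableSet_singleton x) (mass_lt μ x).ne (1 : ℂ)

theorem pm_apply (x y : G) : (pm μ x : G → ℂ) y = ({x} : Set G).indicator (fun _ => (1 : ℂ)) y :=
  ae_all μ indicatorConstLp_coeFn y

theorem pm_self (x : G) : (pm μ x : G → ℂ) x = 1 := by
  rw [pm_apply]
  simp

theorem pm_ne {x y : G} (h : y ≠ x) : (pm μ x : G → ℂ) y = 0 := by
  rw [pm_apply]
  simp [h]

theorem inner_pm (x : G) (ξ : HH μ) : ⟪pm μ x, ξ⟫_ℂ = (μ.real {x} : ℂ) * (ξ : G → ℂ) x := by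
  unfold pm
  rw [L2.inner_indicatorConstLp_one, integral_singleton]
  simp

theorem lam_pm (s x : G) : lam G μ s (pm μ x) = pm μ (s * x) := by
  apply HH_ext
  intro y
  rw [lam_apply, pm_apply, pm_apply]
  by_cases h : y = s * x
  · subst h
    simp
  · have h2 : s⁻¹ * y ≠ x := by
      intro h3
      exact h (inv_mul_eq_iff_eq_mul.1 h3)
    simp [h, h2]

/-- the mass of a point -/
def mm : ℝ := μ.real {1}

theorem mm_eq (x : G) : μ.real {x} = mm μ := by
  have := mass_eq μ x 1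
  rw [mul_one] at this
  unfold mm Measure.real
  rw [this]

theorem mm_pos : 0 < mm μ :=
  ENNReal.toReal_pos (mass_pos μ 1).ne' (mass_lt μ 1).ne

/-- the orthonormal basis -/
def eb (x : G) : HH μ := (((Real.sqrt (mm μ))⁻¹ : ℝ) : ℂ) • pm μ x

theorem inner_eb (x : G) (ξ : HH μ) :
    ⟪eb μ x, ξ⟫_ℂ = ((Real.sqrt (mm μ) : ℝ) : ℂ) * (ξ : G → ℂ) x := by
  unfold eb
  rw [inner_smul_left, inner_pm, mm_eq, Complex.conj_ofReal, ← mul_assoc, ← Complex.ofReal_mul]
  congr 2
  have h := Real.sqrt_pos.2 (mm_pos μ)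
  rw [inv_mul_eq_div, div_eq_iff h.ne']
  exact (Real.mul_self_sqrt (mm_pos μ).le).symm

theorem eb_apply (x y : G) :
    (eb μ x : G → ℂ) y = (((Real.sqrt (mm μ))⁻¹ : ℝ) : ℂ) * (pm μ x : G → ℂ) y :=
  ae_all μ (Lp.coeFn_smul _ _) y

theorem eb_orth : Orthonormal ℂ (eb μ) := by
  classical
  have h := Real.sqrt_pos.2 (mm_pos μ)
  rw [orthonormal_iff_ite]
  intro x y
  rw [inner_eb, eb_apply]
  split_ifs with hxy
  · subst hxy
    rw [pm_self, mul_one, ← Complex.ofReal_mul, mul_inv_cancel₀ h.ne', Complex.ofReal_one]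
  · rw [pm_ne μ hxy, mul_zero, mul_zero]

/-- the Hilbert basis of point masses -/
def hb : HilbertBasis G ℂ (HH μ) := HilbertBasis.mkOfOrthogonalEqBot (eb_orth μ) (by
  rw [Submodule.eq_bot_iff]
  intro ξ hξ
  apply HH_ext
  intro y
  have h1 := (Submodule.mem_orthogonal _ _).1 hξ (eb μ y) (Submodule.subset_span ⟨y, rfl⟩)
  rw [inner_eb] at h1
  have h2 : ((Real.sqrt (mm μ) : ℝ) : ℂ) ≠ 0 := by
    exact_mod_cast (Real.sqrt_pos.2 (mm_pos μ)).ne'
  have h3 := (mul_eq_zero.1 h1).resolve_left h2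
  rw [h3]
  exact (ae_all μ (Lp.coeFn_zero ℂ 2 μ) y).symm)

theorem hb_apply (x : G) : hb μ x = eb μ x := by
  unfold hb
  rw [HilbertBasis.coe_mkOfOrthogonalEqBot]

theorem lam_hb (s x : G) : lam G μ s (hb μ x) = hb μ (s * x) := by
  rw [hb_apply, hb_apply]
  unfold eb
  rw [map_smul, lam_pm]

end Grp

/-- [DH] -/
theorem s_DH (G : Type) [Group G] [TopologicalSpace G] [IsTopologicalGroup G] [T2Space G]
    [LocallyCompactSpace G] [MeasurableSpace G] [BorelSpace G]
    (μ : Measure G) [μ.IsHaarMeasure] [μ.Regular] : S_DH G μ := by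
  intro hd hi
  exact abs_DH (hb μ) (s_REG G μ).1 (lam_hb μ)

/-- [DFS] -/
theorem s_DFS (G : Type) [Group G] [TopologicalSpace G] [IsTopologicalGroup G] [T2Space G]
    [LocallyCompactSpace G] [MeasurableSpace G] [BorelSpace G]
    (μ : Measure G) [μ.IsHaarMeasure] [μ.Regular] : S_DFS G μ := by
  classical
  intro hd
  have hsq := Real.sqrt_pos.2 (mm_pos μ)
  have hsq' : ((Real.sqrt (mm μ) : ℝ) : ℂ) ≠ 0 := by exact_mod_cast hsq.ne'
  have hcr : ∀ (ξ : HH μ) (y : G), cr (hb μ) ξ y = ((Real.sqrt (mm μ) : ℝ) : ℂ) * (ξ : G → ℂ) y := by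
    intro ξ y
    unfold cr
    rw [(hb μ).repr_apply_apply, hb_apply, inner_eb]
  refine ⟨?_, ?_, ?_⟩
  · intro ξ ε hε
    have hsum := (hb μ).hasSum_repr ξ
    have hev := hsum.eventually (Metric.closedBall_mem_nhds ξ hε)
    obtain ⟨F, hF⟩ := hev.exists
    refine ⟨∑ i ∈ F, (hb μ).repr ξ i • hb μ i, ?_, ?_⟩
    · rw [← dist_eq_norm, dist_comm]
      exact hF
    · apply F.finite_toSet.subset
      intro y hy
      by_contra hyF
      apply hy
      have h1 : cr (hb μ) (∑ i ∈ F, (hb μ).repr ξ i • hb μ i) y = 0 := by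
        unfold cr
        rw [(hb μ).repr_apply_apply, inner_sum]
        refine Finset.sum_eq_zero fun i hi => ?_
        have hyi : y ≠ i := fun h => hyF (by rw [h]; exact hi)
        rw [inner_smul_right, (hb μ).orthonormal.2 hyi, mul_zero]
      rw [hcr] at h1
      exact (mul_eq_zero.1 h1).resolve_left hsq'
  · intro ξ η hξ hη
    refine (Set.Finite.image2 (fun i j => i * j⁻¹) hη hξ).subset ?_
    intro s hs
    have h1 := hasSum_cr (hb μ) η (lam G μ s ξ)
    obtain ⟨y, hy⟩ : ∃ y, ⟪cr (hb μ) η y, cr (hb μ) (lam G μ s ξ) y⟫_ℂ ≠ 0 := by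
      by_contra hcon
      push Not at hcon
      apply hs
      refine h1.unique ?_
      simp only [hcon]
      exact hasSum_zero
    rw [hcr, hcr, lam_apply] at hy
    refine ⟨y, ?_, s⁻¹ * y, ?_, by simp⟩
    · intro h0
      apply hy
      rw [h0]
      simp
    · intro h0
      apply hy
      rw [h0]
      simp
  · intro x
    refine ⟨eb μ 1, eb μ x, ?_, ?_⟩
    · have h := lam_hb μ x 1
      rw [hb_apply, hb_apply, mul_one] at h
      rw [h]
      have := (eb_orth μ).1 x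
      rw [inner_self_eq_norm_sq_to_K, this]
      simp
    · intro s hs
      have h := lam_hb μ s 1
      rw [hb_apply, hb_apply, mul_one] at h
      rw [h]
      exact (eb_orth μ).2 (Ne.symm hs)

end

end Pool.Agent.L7h73.RF
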