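import Pool.Agent.L7h17.RF.Stm

/-!
# Project RF (helper17), part DH, abstract form (helper73)

The Perron-Frobenius argument on `ℓ²(G)` for an infinite discrete group `G`.
-/

set_option autoImplicit false
set_option linter.unusedSectionVars false

open MeasureTheory Filter Topology
open scoped ComplexConjugate InnerProductSpace

namespace Pool.Agent.L7h73.RF

open Pool.Agent.L7h17.RF

noncomputable section

/-- weights -/
theorem exists_weight (G : Type) [Group G] [Infinite G] :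
    ∃ (H : Subgroup G) (w : G → ℝ), Infinite H ∧ Summable w ∧ (∀ y, 0 ≤ w y) ∧
      (∀ y, w y⁻¹ = w y) ∧ ∀ y ∈ H, 0 < w y := by
  let e : ℕ ↪ G := Infinite.natEmbedding G
  let φ : FreeGroup ℕ →* G := FreeGroup.lift (fun n => e n)
  have hcount : (φ.range : Set G).Countable := by
    rw [MonoidHom.coe_range]
    exact Set.countable_range _
  have hmem : ∀ n, e n ∈ φ.range := fun n => ⟨FreeGroup.of n, by simp [φ]⟩
  obtain ⟨ε', hpos, c, hc, -⟩ := hcount.exists_pos_hasSum_le (zero_lt_one (α := ℝ))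
  let w0 : G → ℝ := (φ.range : Set G).indicator ε'
  have hw0 : Summable w0 := summable_subtype_iff_indicator.1 hc.summable
  have hw0n : ∀ y, 0 ≤ w0 y := fun y => Set.indicator_nonneg (fun i _ => (hpos i).le) y
  have hw0p : ∀ y ∈ φ.range, 0 < w0 y := by
    intro y hy
    simp only [w0]
    rw [Set.indicator_of_mem hy]
    exact hpos y
  refine ⟨φ.range, fun y => w0 y + w0 y⁻¹, ?_, ?_, ?_, ?_, ?_⟩
  · exact Infinite.of_injective (fun n => (⟨e n, hmem n⟩ : φ.range)) (by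
      intro m n h
      exact e.injective (congrArg Subtype.val h))
  · exact hw0.add ((Equiv.inv G).summable_iff.2 hw0)
  · intro y
    exact add_nonneg (hw0n _) (hw0n _)
  · intro y
    simp only [inv_inv]
    ring
  · intro y hy
    exact add_pos_of_pos_of_nonneg (hw0p y hy) (hw0n _)

section Abs

variable {G K : Type} [Group G] [NormedAddCommGroup K] [InnerProductSpace ℂ K] [CompleteSpace K]

/-- coordinates -/
def cr (b : HilbertBasis G ℂ K) (ξ : K) (y : G) : ℂ := b.repr ξ y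

variable (b : HilbertBasis G ℂ K) {V : G → Op K}

theorem cr_ext {ξ η : K} (h : ∀ y, cr b ξ y = cr b η y) : ξ = η := by
  apply b.repr.injective
  ext y
  exact h y

theorem cr_sub (ξ η : K) (y : G) : cr b (ξ - η) y = cr b ξ y - cr b η y := by
  simp [cr]

theorem cr_smul (c : ℂ) (ξ : K) (y : G) : cr b (c • ξ) y = c * cr b ξ y := by
  simp [cr]

theorem cr_zero (y : G) : cr b (0 : K) y = 0 := by
  simp [cr]

theorem hasSum_cr (ξ η : K) : HasSum (fun y => ⟪cr b ξ y, cr b η y⟫_ℂ) ⟪ξ, η⟫_ℂ := by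
  rw [← b.repr.inner_map_map]
  exact lp.hasSum_inner _ _

theorem hasSum_cr_sq (ξ : K) : HasSum (fun y => ‖cr b ξ y‖ ^ 2) (‖ξ‖ ^ 2) := by
  have h := hasSum_cr b ξ ξ
  have h2 := h.mapL Complex.reCLM
  simp only [Complex.reCLM_apply] at h2
  have e1 : (fun y => (⟪cr b ξ y, cr b ξ y⟫_ℂ).re) = fun y => ‖cr b ξ y‖ ^ 2 := by
    funext y
    exact inner_self_eq_norm_sq (𝕜 := ℂ) (cr b ξ y)
  rw [e1] at h2
  have e2 : (⟪ξ, ξ⟫_ℂ).re = ‖ξ‖ ^ 2 := inner_self_eq_norm_sq (𝕜 := ℂ) ξ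
  rw [e2] at h2
  exact h2

theorem exists_cr (f : G → ℂ) (hf : Summable fun y => ‖f y‖ ^ 2) :
    ∃ ξ : K, ∀ y, cr b ξ y = f y := by
  have hm : Memℓp f 2 := by
    apply memℓp_gen
    refine hf.congr fun y => ?_
    simp
  refine ⟨b.repr.symm ⟨f, hm⟩, fun y => ?_⟩
  simp [cr]

theorem norm_V (hV : URep V) (s : G) (ξ : K) : ‖V s ξ‖ = ‖ξ‖ := by
  have h1 : ⟪V s ξ, V s ξ⟫_ℂ = ⟪ξ, ξ⟫_ℂ := by
    rw [hV.inv s ξ (V s ξ)]
    have : V s⁻¹ (V s ξ) = (V s⁻¹ * V s) ξ := rfl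
    rw [this, ← hV.mul, inv_mul_cancel, hV.one]
    rfl
  have h2 : ‖V s ξ‖ ^ 2 = ‖ξ‖ ^ 2 := by
    have e1 : (⟪V s ξ, V s ξ⟫_ℂ).re = ‖V s ξ‖ ^ 2 := inner_self_eq_norm_sq (𝕜 := ℂ) _
    have e2 : (⟪ξ, ξ⟫_ℂ).re = ‖ξ‖ ^ 2 := inner_self_eq_norm_sq (𝕜 := ℂ) ξ
    rw [← e1, ← e2, h1]
  exact (sq_eq_sq₀ (norm_nonneg _) (norm_nonneg _)).1 h2

theorem cr_V (hV : URep V) (hb : ∀ s x, V s (b x) = b (s * x)) (s : G) (ξ : K) (y : G) :
    cr b (V s ξ) y = cr b ξ (s⁻¹ * y) := by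
  unfold cr
  rw [b.repr_apply_apply, b.repr_apply_apply, ← hb s⁻¹ y]
  have := hV.inv s⁻¹ (b y) ξ
  rw [inv_inv] at this
  exact this.symm

/-- the operator `∑ w(y) V(y)` -/
def AA (V : G → Op K) (w : G → ℝ) : Op K := ∑' y, (w y : ℂ) • V y

variable {w : G → ℝ}

theorem hasSum_AA (hV : URep V) (hw : Summable w) (hw0 : ∀ y, 0 ≤ w y) :
    HasSum (fun y => (w y : ℂ) • V y) (AA V w) := by
  apply Summable.hasSum
  apply Summable.of_norm_bounded hw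
  intro y
  rw [norm_smul, Complex.norm_real, Real.norm_of_nonneg (hw0 y)]
  have : ‖V y‖ ≤ 1 := by
    apply ContinuousLinearMap.opNorm_le_bound _ zero_le_one
    intro ξ
    rw [norm_V hV, one_mul]
  nlinarith [hw0 y]

theorem hasSum_AA_apply (hV : URep V) (hw : Summable w) (hw0 : ∀ y, 0 ≤ w y) (ξ : K) :
    HasSum (fun y => (w y : ℂ) • V y ξ) (AA V w ξ) :=
  (hasSum_AA hV hw hw0).mapL (ContinuousLinearMap.apply ℂ K ξ)

theorem hasSum_AA_inner (hV : URep V) (hw : Summable w) (hw0 : ∀ y, 0 ≤ w y) (η ξ : K) :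
    HasSum (fun y => (w y : ℂ) * ⟪η, V y ξ⟫_ℂ) ⟪η, AA V w ξ⟫_ℂ := by
  have := (hasSum_AA_apply hV hw hw0 ξ).mapL (innerSL ℂ η)
  simpa [inner_smul_right] using this

theorem AA_bic (hV : URep V) (hw : Summable w) (hw0 : ∀ y, 0 ≤ w y) : AA V w ∈ Bic V := by
  intro S hS
  have h1 := (hasSum_AA hV hw hw0).mul_left S
  have h2 := (hasSum_AA hV hw hw0).mul_right S
  have e : (fun y => S * ((w y : ℂ) • V y)) = fun y => ((w y : ℂ) • V y) * S := by
    funext y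
    rw [mul_smul_comm, hS y, smul_mul_assoc]
  rw [e] at h1
  exact h1.unique h2

theorem AA_symm (hV : URep V) (hw : Summable w) (hw0 : ∀ y, 0 ≤ w y) (hws : ∀ y, w y⁻¹ = w y)
    (ξ η : K) : ⟪AA V w ξ, η⟫_ℂ = ⟪ξ, AA V w η⟫_ℂ := by
  have h1 := hasSum_AA_inner hV hw hw0 η ξ
  have h1' := h1.star
  have e0 : star (⟪η, AA V w ξ⟫_ℂ) = ⟪AA V w ξ, η⟫_ℂ := inner_conj_symm _ _
  rw [e0] at h1'
  have h2 := hasSum_AA_inner hV hw hw0 ξ η
  have h3 := (Equiv.inv G).hasSum_iff.2 h2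
  have e : (fun y => star ((w y : ℂ) * ⟪η, V y ξ⟫_ℂ)) =
      (fun y => (w y : ℂ) * ⟪ξ, V y η⟫_ℂ) ∘ (Equiv.inv G) := by
    funext y
    simp only [Function.comp_apply, Equiv.inv_apply, hws]
    rw [star_mul']
    have e1 : star ((w y : ℂ)) = (w y : ℂ) := Complex.conj_ofReal _
    have e2 : star (⟪η, V y ξ⟫_ℂ) = ⟪V y ξ, η⟫_ℂ := inner_conj_symm _ _
    rw [e1, e2, hV.inv]
  rw [e] at h1'
  exact h1'.unique h3

theorem cr_AA (hV : URep V) (hb : ∀ s x, V s (b x) = b (s * x)) (hw : Summable w)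
    (hw0 : ∀ y, 0 ≤ w y) (ξ : K) (x : G) :
    HasSum (fun y => (w y : ℂ) * cr b ξ (y⁻¹ * x)) (cr b (AA V w ξ) x) := by
  have h := hasSum_AA_inner hV hw hw0 (b x) ξ
  have e : ⟪b x, AA V w ξ⟫_ℂ = cr b (AA V w ξ) x := (b.repr_apply_apply _ _).symm
  have e2 : (fun y => (w y : ℂ) * ⟪b x, V y ξ⟫_ℂ) =
      fun y => (w y : ℂ) * cr b ξ (y⁻¹ * x) := by
    funext y
    rw [← cr_V b hV hb y ξ x]
    unfold cr
    rw [b.repr_apply_apply]
  rw [e, e2] at h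
  exact h

theorem inner_abs_le (hV : URep V) (hb : ∀ s x, V s (b x) = b (s * x)) (ξ ζ : K)
    (hζ : ∀ y, cr b ζ y = ((‖cr b ξ y‖ : ℝ) : ℂ)) (s : G) :
    ‖⟪ξ, V s ξ⟫_ℂ‖ ≤ (⟪ζ, V s ζ⟫_ℂ).re := by
  have h1 := hasSum_cr b ξ (V s ξ)
  have h2 := (hasSum_cr b ζ (V s ζ)).mapL Complex.reCLM
  simp only [Complex.reCLM_apply] at h2
  apply h1.norm_le_of_bounded h2
  intro y
  rw [hζ, cr_V b hV hb, cr_V b hV hb, hζ]
  refine (norm_inner_le_norm _ _).trans (le_of_eq ?_)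
  simp [mul_comm]

theorem pos_zero (h : Op K) (hs : ∀ x y, ⟪h x, y⟫_ℂ = ⟪x, h y⟫_ℂ)
    (hp : ∀ y, 0 ≤ (⟪h y, y⟫_ℂ).re) (x : K) (hx : (⟪h x, x⟫_ℂ).re ≤ 0) : h x = 0 := by
  set n : ℝ := ‖h x‖ ^ 2 with hn
  set q : ℝ := (⟪h (h x), h x⟫_ℂ).re with hq
  have hq0 : 0 ≤ q := hp _
  have e0 : (⟪h x, h x⟫_ℂ).re = n := inner_self_eq_norm_sq (𝕜 := ℂ) _
  have key : ∀ t : ℝ, 0 ≤ 2 * t * n + t ^ 2 * q := by
    intro t
    have h1 := hp (x + (t : ℂ) • h x)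
    have e : (⟪h (x + (t : ℂ) • h x), x + (t : ℂ) • h x⟫_ℂ).re =
        (⟪h x, x⟫_ℂ).re + 2 * t * n + t ^ 2 * q := by
      simp only [map_add, map_smul, inner_add_left, inner_add_right, inner_smul_left,
        inner_smul_right, Complex.conj_ofReal, Complex.add_re, Complex.re_ofReal_mul]
      rw [hs (h x) x, e0]
      ring
    rw [e] at h1
    linarith
  have hq1 : 0 < q + 1 := by linarith
  have h2 := key (-n / (q + 1))
  have h3 : 2 * (-n / (q + 1)) * n + (-n / (q + 1)) ^ 2 * q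
      = - (n ^ 2 * (q + 2)) / (q + 1) ^ 2 := by
    field_simp
    ring
  rw [h3] at h2
  have h4 : 0 ≤ - (n ^ 2 * (q + 2)) := by
    have := mul_nonneg h2 (sq_nonneg (q + 1))
    rwa [div_mul_cancel₀ _ (by positivity)] at this
  have h5 : n ^ 2 = 0 := by nlinarith [sq_nonneg n]
  have h6 : n = 0 := by simpa using h5
  have h7 : ‖h x‖ = 0 := by
    rw [hn] at h6
    simpa using h6
  exact norm_eq_zero.1 h7

/-- real eigenfunctions -/
structure KF (w : G → ℝ) (c : ℝ) (f : G → ℝ) : Prop where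
  sm : Summable fun y => f y ^ 2
  eq : ∀ x, HasSum (fun y => w y * f (y⁻¹ * x)) (c * f x)

theorem KF.right {c : ℝ} {f : G → ℝ} (h : KF w c f) (z : G) : KF w c fun y => f (y * z) := by
  refine ⟨(Equiv.mulRight z).summable_iff.2 h.sm, fun x => ?_⟩
  have := h.eq (x * z)
  simpa [mul_assoc] using this

theorem KF.sub {c : ℝ} {f g : G → ℝ} (h : KF w c f) (h' : KF w c g) (t : ℝ) :
    KF w c fun y => f y - t * g y := by
  refine ⟨?_, fun x => ?_⟩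
  · refine Summable.of_nonneg_of_le (fun y => sq_nonneg _) (fun y => ?_)
      ((h.sm.mul_left 2).add (h'.sm.mul_left (2 * t ^ 2)))
    nlinarith [sq_nonneg (f y + t * g y)]
  · have := (h.eq x).sub ((h'.eq x).mul_left t)
    have e1 : (fun y => w y * (f (y⁻¹ * x) - t * g (y⁻¹ * x))) =
        fun y => w y * f (y⁻¹ * x) - t * (w y * g (y⁻¹ * x)) := by
      funext y
      ring
    have e2 : c * (f x - t * g x) = c * f x - t * (c * g x) := by ring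
    rw [e1, e2]
    exact this

/-- the top of the quadratic form -/
theorem eig_abs (hV : URep V) (hb : ∀ s x, V s (b x) = b (s * x)) (hw : Summable w)
    (hw0 : ∀ y, 0 ≤ w y) (hws : ∀ y, w y⁻¹ = w y) (c : ℝ)
    (hc : ∀ ξ : K, (⟪ξ, AA V w ξ⟫_ℂ).re ≤ c * ‖ξ‖ ^ 2) (ξ : K)
    (hξ : AA V w ξ = (c : ℂ) • ξ) : KF w c fun y => ‖cr b ξ y‖ := by
  obtain ⟨ζ, hζ⟩ := exists_cr b (fun y => ((‖cr b ξ y‖ : ℝ) : ℂ)) (by
    refine (hasSum_cr_sq b ξ).summable.congr fun y => ?_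
    simp)
  have hn : ‖ζ‖ ^ 2 = ‖ξ‖ ^ 2 := by
    have h1 := hasSum_cr_sq b ζ
    have h2 := hasSum_cr_sq b ξ
    have e : (fun y => ‖cr b ζ y‖ ^ 2) = fun y => ‖cr b ξ y‖ ^ 2 := by
      funext y
      rw [hζ]
      simp
    rw [e] at h1
    exact h1.unique h2
  have h1 : (⟪ξ, AA V w ξ⟫_ℂ).re = c * ‖ξ‖ ^ 2 := by
    rw [hξ, inner_smul_right, Complex.re_ofReal_mul]
    congr 1
    exact inner_self_eq_norm_sq (𝕜 := ℂ) _
  have h2 : (⟪ξ, AA V w ξ⟫_ℂ).re ≤ (⟪ζ, AA V w ζ⟫_ℂ).re := by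
    have g1 := (hasSum_AA_inner hV hw hw0 ξ ξ).mapL Complex.reCLM
    have g2 := (hasSum_AA_inner hV hw hw0 ζ ζ).mapL Complex.reCLM
    simp only [Complex.reCLM_apply] at g1 g2
    refine hasSum_le (fun y => ?_) g1 g2
    rw [Complex.re_ofReal_mul, Complex.re_ofReal_mul]
    refine mul_le_mul_of_nonneg_left ?_ (hw0 y)
    exact (Complex.re_le_norm _).trans (inner_abs_le b hV hb ξ ζ hζ y)
  let h : Op K := (c : ℂ) • (1 : Op K) - AA V w
  have happ : ∀ x, h x = (c : ℂ) • x - AA V w x := fun x => rfl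
  have hsy : ∀ x y, ⟪h x, y⟫_ℂ = ⟪x, h y⟫_ℂ := by
    intro x y
    rw [happ, happ, inner_sub_left, inner_sub_right, inner_smul_left, inner_smul_right,
      AA_symm hV hw hw0 hws, Complex.conj_ofReal]
  have hre : ∀ x, (⟪h x, x⟫_ℂ).re = c * ‖x‖ ^ 2 - (⟪x, AA V w x⟫_ℂ).re := by
    intro x
    rw [hsy, happ, inner_sub_right, inner_smul_right, Complex.sub_re, Complex.re_ofReal_mul]
    congr 2
    exact inner_self_eq_norm_sq (𝕜 := ℂ) _
  have hz : h ζ = 0 := by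
    refine pos_zero h hsy (fun y => ?_) ζ ?_
    · rw [hre]
      linarith [hc y]
    · rw [hre, hn]
      linarith
  have hz2 : AA V w ζ = (c : ℂ) • ζ := by
    rw [happ] at hz
    exact (sub_eq_zero.1 hz).symm
  refine ⟨(hasSum_cr_sq b ξ).summable, fun x => ?_⟩
  have g := cr_AA b hV hb hw hw0 ζ x
  rw [hz2, cr_smul, hζ] at g
  simp only [hζ] at g
  have e : (fun y => (w y : ℂ) * ((‖cr b ξ (y⁻¹ * x)‖ : ℝ) : ℂ)) =
      fun y => ((w y * ‖cr b ξ (y⁻¹ * x)‖ : ℝ) : ℂ) := by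
    funext y
    push_cast
    rfl
  rw [e, ← Complex.ofReal_mul] at g
  exact Complex.hasSum_ofReal.1 g

theorem KF.abs (hV : URep V) (hb : ∀ s x, V s (b x) = b (s * x)) (hw : Summable w)
    (hw0 : ∀ y, 0 ≤ w y) (hws : ∀ y, w y⁻¹ = w y) {c : ℝ}
    (hc : ∀ ξ : K, (⟪ξ, AA V w ξ⟫_ℂ).re ≤ c * ‖ξ‖ ^ 2) {f : G → ℝ} (h : KF w c f) :
    KF w c fun y => |f y| := by
  obtain ⟨ξ, hξ⟩ := exists_cr b (fun y => ((f y : ℝ) : ℂ)) (by
    refine h.sm.congr fun y => ?_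
    simp)
  have h1 : AA V w ξ = (c : ℂ) • ξ := by
    apply cr_ext b
    intro x
    have g := cr_AA b hV hb hw hw0 ξ x
    rw [cr_smul, hξ]
    simp only [hξ] at g
    have g2 := Complex.hasSum_ofReal.2 (h.eq x)
    have e : (fun y => (w y : ℂ) * ((f (y⁻¹ * x) : ℝ) : ℂ)) =
        fun y => ((w y * f (y⁻¹ * x) : ℝ) : ℂ) := by
      funext y
      push_cast
      rfl
    rw [e] at g
    rw [g.unique g2]
    push_cast
    rfl
  have h2 := eig_abs b hV hb hw hw0 hws c hc ξ h1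
  simp only [hξ, Complex.norm_real, Real.norm_eq_abs] at h2
  exact h2

theorem ker_zero (hV : URep V) (hb : ∀ s x, V s (b x) = b (s * x)) (hw : Summable w)
    (hw0 : ∀ y, 0 ≤ w y) (hws : ∀ y, w y⁻¹ = w y) (H : Subgroup G) [Infinite H]
    (hH : ∀ y ∈ H, 0 < w y) (c : ℝ)
    (hc : ∀ ξ : K, (⟪ξ, AA V w ξ⟫_ℂ).re ≤ c * ‖ξ‖ ^ 2) (ξ : K)
    (hξ : AA V w ξ = (c : ℂ) • ξ) : ξ = 0 := by
  by_contra hne
  obtain ⟨x0, hx0⟩ : ∃ x, cr b ξ x ≠ 0 := by
    by_contra hcon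
    push Not at hcon
    apply hne
    apply cr_ext b
    intro y
    rw [hcon y, cr_zero]
  let η : G → ℝ := fun y => ‖cr b ξ (y * x0)‖
  have hη : KF w c η := (eig_abs b hV hb hw hw0 hws c hc ξ hξ).right x0
  have hη0 : ∀ y, 0 ≤ η y := fun y => norm_nonneg _
  have hη1 : 0 < η 1 := by
    simp only [η, one_mul]
    exact norm_pos_iff.2 hx0
  -- sums over the subgroup
  have hS : Summable fun y : H => η y ^ 2 := hη.sm.subtype (H : Set G)
  have hSpos : 0 < ∑' y : H, η y ^ 2 := by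
    refine hS.tsum_pos (fun y => sq_nonneg _) (1 : H) ?_
    have : η ((1 : H) : G) = η 1 := rfl
    rw [this]
    positivity
  have hconst : ∀ z : H, η z = η 1 := by
    intro z
    set t : ℝ := η z / η 1 with ht
    have ht0 : 0 ≤ t := div_nonneg (hη0 _) (hη0 _)
    have hζ : KF w c fun y => |η (y * z) - t * η y| :=
      KF.abs b hV hb hw hw0 hws hc ((hη.right (z : G)).sub hη t)
    have hz1 : |η (1 * z) - t * η 1| = 0 := by
      rw [one_mul, ht, div_mul_cancel₀ _ hη1.ne', sub_self, abs_zero]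
    have h0 := hζ.eq 1
    simp only [hz1, mul_zero, mul_one] at h0
    have h00 := (hasSum_zero_iff_of_nonneg (fun y => mul_nonneg (hw0 y) (abs_nonneg _))).1 h0
    have hzero : ∀ y : H, η (y * z) = t * η y := by
      intro y
      have h1 := congrFun h00 (y : G)⁻¹
      simp only [inv_inv, Pi.zero_apply] at h1
      have h2 : 0 < w (y : G)⁻¹ := hH _ (H.inv_mem y.2)
      have h3 := (mul_eq_zero.1 h1).resolve_left h2.ne'
      linarith [abs_eq_zero.1 h3]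
    have hsum : ∑' y : H, η (y * z) ^ 2 = ∑' y : H, η y ^ 2 := by
      have := (Equiv.mulRight z).tsum_eq (fun y : H => η y ^ 2)
      simpa using this
    have hsum2 : ∑' y : H, η (y * z) ^ 2 = t ^ 2 * ∑' y : H, η y ^ 2 := by
      rw [← tsum_mul_left]
      congr 1
      funext y
      rw [hzero y]
      ring
    have ht2 : t ^ 2 = 1 := by
      have h4 : t ^ 2 * (∑' y : H, η y ^ 2) = 1 * ∑' y : H, η y ^ 2 := by
        rw [← hsum2, hsum, one_mul]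
      exact mul_right_cancel₀ hSpos.ne' h4
    have ht1 : t = 1 := by nlinarith
    rw [ht, div_eq_one_iff_eq hη1.ne'] at ht1
    exact ht1
  have hS2 : Summable fun _ : H => η 1 ^ 2 := by
    refine hS.congr fun y => ?_
    rw [hconst y]
  have h5 := (summable_const_iff _).1 hS2
  have h6 : η 1 = 0 := by simpa using h5
  exact hη1.ne' h6

/-- [DH] in abstract form -/
theorem abs_DH [Infinite G] (hV : URep V) (hb : ∀ s x, V s (b x) = b (s * x)) :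
    ∃ (h : Op K) (v : ℕ → K), h ∈ Bic V ∧ IsSelfAdjoint h ∧
      (∀ y, 0 ≤ (⟪h y, y⟫_ℂ).re) ∧ (∀ n, ‖v n‖ = 1) ∧ (∀ y, h y = 0 → y = 0) ∧
      Tendsto (fun n => (⟪h (v n), v n⟫_ℂ).re) atTop (𝓝 0) ∧
      ∀ n, {s : G | ⟪v n, V s (v n)⟫_ℂ ≠ 0}.Finite := by
  classical
  obtain ⟨H, w, hHi, hw, hw0, hws, hH⟩ := exists_weight G
  let A : Op K := AA V w
  let Q : K → ℝ := fun ξ => (⟪ξ, A ξ⟫_ℂ).re
  have hQc : Continuous Q := by
    simp only [Q]
    fun_prop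
  have hQs : ∀ (t : ℝ) (ξ : K), Q ((t : ℂ) • ξ) = t ^ 2 * Q ξ := by
    intro t ξ
    simp only [Q, map_smul, inner_smul_left, inner_smul_right, Complex.conj_ofReal,
      Complex.re_ofReal_mul]
    ring
  have hQb : ∀ ξ, Q ξ ≤ ‖A‖ * ‖ξ‖ ^ 2 := by
    intro ξ
    have h1 : Q ξ ≤ ‖⟪ξ, A ξ⟫_ℂ‖ := Complex.re_le_norm _
    have h2 : ‖⟪ξ, A ξ⟫_ℂ‖ ≤ ‖ξ‖ * ‖A ξ‖ := norm_inner_le_norm _ _
    have h3 : ‖A ξ‖ ≤ ‖A‖ * ‖ξ‖ := A.le_opNorm ξ
    nlinarith [norm_nonneg ξ]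
  let T : Set ℝ := Q '' {ξ : K | ‖ξ‖ = 1}
  have hTne : T.Nonempty := ⟨Q (b 1), b 1, b.orthonormal.1 1, rfl⟩
  have hTb : BddAbove T := by
    refine ⟨‖A‖, ?_⟩
    rintro _ ⟨ξ, hξ, rfl⟩
    have := hQb ξ
    rw [show ‖ξ‖ = 1 from hξ] at this
    linarith
  let c : ℝ := sSup T
  have hc : ∀ ξ : K, Q ξ ≤ c * ‖ξ‖ ^ 2 := by
    intro ξ
    by_cases h0 : ξ = 0
    · simp [Q, h0]
    · have hn : 0 < ‖ξ‖ := norm_pos_iff.2 h0
      have h1 : Q (((‖ξ‖⁻¹ : ℝ) : ℂ) • ξ) ≤ c := by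
        apply le_csSup hTb
        refine ⟨_, ?_, rfl⟩
        show ‖(((‖ξ‖⁻¹ : ℝ) : ℂ) • ξ)‖ = 1
        rw [norm_smul, Complex.norm_real, norm_inv, norm_norm, inv_mul_cancel₀ hn.ne']
      rw [hQs] at h1
      have h2 : (‖ξ‖⁻¹) ^ 2 * Q ξ * ‖ξ‖ ^ 2 = Q ξ := by
        field_simp
      nlinarith [mul_le_mul_of_nonneg_right h1 (sq_nonneg ‖ξ‖)]
  let h : Op K := (c : ℂ) • (1 : Op K) - A
  have happ : ∀ x, h x = (c : ℂ) • x - A x := fun x => rfl
  have hsy : ∀ x y, ⟪h x, y⟫_ℂ = ⟪x, h y⟫_ℂ := by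
    intro x y
    rw [happ, happ, inner_sub_left, inner_sub_right, inner_smul_left, inner_smul_right,
      AA_symm hV hw hw0 hws, Complex.conj_ofReal]
  have hre : ∀ x, (⟪h x, x⟫_ℂ).re = c * ‖x‖ ^ 2 - Q x := by
    intro x
    rw [hsy, happ, inner_sub_right, inner_smul_right, Complex.sub_re, Complex.re_ofReal_mul]
    congr 2
    exact inner_self_eq_norm_sq (𝕜 := ℂ) _
  -- approximating vectors
  have happrox : ∀ n : ℕ, ∃ v : K, ‖v‖ = 1 ∧ c - 1 / ((n : ℝ) + 1) < Q v ∧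
      {s : G | ⟪v, V s v⟫_ℂ ≠ 0}.Finite := by
    intro n
    have hε : (0 : ℝ) < 1 / ((n : ℝ) + 1) := by positivity
    set ε : ℝ := 1 / ((n : ℝ) + 1) with hεd
    obtain ⟨_, ⟨ξ, hξ, rfl⟩, hξc⟩ := exists_lt_of_lt_csSup hTne (show c - ε < sSup T by
      show c - ε < c
      linarith)
    have hξ1 : ‖ξ‖ = 1 := hξ
    let W : Set K := {ζ | (c - ε) * ‖ζ‖ ^ 2 < Q ζ}
    have hW : IsOpen W := isOpen_lt (by fun_prop) hQc
    have hξW : ξ ∈ W := by
      show (c - ε) * ‖ξ‖ ^ 2 < Q ξ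
      rw [hξ1]
      linarith
    have hsum := b.hasSum_repr ξ
    have hev : ∀ᶠ F : Finset G in atTop, ∑ i ∈ F, b.repr ξ i • b i ∈ W :=
      hsum.eventually (hW.mem_nhds hξW)
    obtain ⟨F, hF⟩ := hev.exists
    set ζ : K := ∑ i ∈ F, b.repr ξ i • b i with hζd
    have hζ0 : ζ ≠ 0 := by
      intro h0
      have : (c - ε) * ‖ζ‖ ^ 2 < Q ζ := hF
      rw [h0] at this
      simp [Q] at this
    have hn : 0 < ‖ζ‖ := norm_pos_iff.2 hζ0
    have hsupp : ∀ y, y ∉ F → cr b ζ y = 0 := by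
      intro y hy
      unfold cr
      rw [b.repr_apply_apply, hζd, inner_sum]
      refine Finset.sum_eq_zero fun i hi => ?_
      have hyi : y ≠ i := fun h => hy (by rw [h]; exact hi)
      rw [inner_smul_right, b.orthonormal.2 hyi, mul_zero]
    refine ⟨((‖ζ‖⁻¹ : ℝ) : ℂ) • ζ, ?_, ?_, ?_⟩
    · rw [norm_smul, Complex.norm_real, norm_inv, norm_norm, inv_mul_cancel₀ hn.ne']
    · rw [hQs]
      have h1 : (c - ε) * ‖ζ‖ ^ 2 < Q ζ := hF
      rw [inv_pow, inv_mul_eq_div, lt_div_iff₀ (by positivity)]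
      exact h1
    · apply ((F ×ˢ F).image (fun p => p.1 * p.2⁻¹)).finite_toSet.subset
      intro s hs
      have hs' : ⟪((‖ζ‖⁻¹ : ℝ) : ℂ) • ζ, V s (((‖ζ‖⁻¹ : ℝ) : ℂ) • ζ)⟫_ℂ ≠ 0 := hs
      have h1 := hasSum_cr b (((‖ζ‖⁻¹ : ℝ) : ℂ) • ζ) (V s (((‖ζ‖⁻¹ : ℝ) : ℂ) • ζ))
      obtain ⟨y, hy⟩ : ∃ y, ⟪cr b (((‖ζ‖⁻¹ : ℝ) : ℂ) • ζ) y,
          cr b (V s (((‖ζ‖⁻¹ : ℝ) : ℂ) • ζ)) y⟫_ℂ ≠ 0 := by
        by_contra hcon
        push Not at hcon
        apply hs'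
        refine h1.unique ?_
        simp only [hcon]
        exact hasSum_zero
      rw [cr_V b hV hb, cr_smul, cr_smul] at hy
      have hy1 : y ∈ F := by
        by_contra hcon
        apply hy
        rw [hsupp y hcon]
        simp
      have hy2 : s⁻¹ * y ∈ F := by
        by_contra hcon
        apply hy
        rw [hsupp _ hcon]
        simp
      simp only [Finset.coe_image, Set.mem_image, Finset.mem_coe, Finset.mem_product]
      exact ⟨(y, s⁻¹ * y), ⟨hy1, hy2⟩, by simp⟩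
  choose v hv1 hv2 hv3 using happrox
  refine ⟨h, v, ?_, ?_, ?_, hv1, ?_, ?_, hv3⟩
  · intro S hS
    have h1 := AA_bic hV hw hw0 S hS
    show S * ((c : ℂ) • (1 : Op K) - A) = ((c : ℂ) • (1 : Op K) - A) * S
    rw [mul_sub, sub_mul, h1, mul_smul_comm, smul_mul_assoc, mul_one, one_mul]
  · rw [ContinuousLinearMap.isSelfAdjoint_iff_isSymmetric]
    intro x y
    exact hsy x y
  · intro y
    rw [hre]
    linarith [hc y]
  · intro y hy
    have h2 : A y = (c : ℂ) • y := by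
      rw [happ] at hy
      exact (sub_eq_zero.1 hy).symm
    exact ker_zero b hV hb hw hw0 hws H hH c hc y h2
  · have hlim : Tendsto (fun n : ℕ => 1 / ((n : ℝ) + 1)) atTop (𝓝 0) :=
      tendsto_one_div_add_atTop_nhds_zero_nat
    refine squeeze_zero (fun n => ?_) (fun n => ?_) hlim
    · rw [hre]
      linarith [hc (v n)]
    · rw [hre, hv1 n]
      linarith [hv2 n]

end Abs

end

end Pool.Agent.L7h73.RF
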